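import Pool.Agent.Helper9.RC2.Goals
import Pool.Agent.Helper32.RC.CutDown

/-!
# MP_b55b7c_an, project RC2, packet VEC: exact comparison gives a bounded column which avoids `S`
-/

open scoped ENNReal NNReal InnerProductSpace ComplexOrder
open Filter Topology

attribute [-instance] CStarMatrix.instAlgebra CStarMatrix.instModule CStarMatrix.instSMul
  CStarMatrix.instMulAction CStarMatrix.instDistribMulAction

set_option linter.unusedSectionVars false

noncomputable section
namespace Pool.Agent.Helper48.RC2.VEC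
open RC RC.CutDown
universe u

/-! ## Functions -/

def rtF (g t : ℝ) : ℝ := Real.sqrt (max (t - g) 0)
def rF (g t : ℝ) : ℝ := (max t g)⁻¹
def mF (d t : ℝ) : ℝ := min 1 (2 * t / d)
def kF (d t : ℝ) : ℝ := 2 / d / max 1 (2 * t / d)
def nF (δ t : ℝ) : ℝ := max 0 (1 - t / δ)

theorem rtF_cont (g : ℝ) : Continuous (rtF g) := by unfold rtF; fun_prop

theorem rF_cont {g : ℝ} (hg : 0 < g) : Continuous (rF g) := by
  unfold rF
  exact Continuous.inv₀ (by fun_prop) fun t => (lt_max_of_lt_right hg).ne'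

theorem mF_cont (d : ℝ) : Continuous (mF d) := by unfold mF; fun_prop

theorem kF_cont (d : ℝ) : Continuous (kF d) := by
  unfold kF
  exact Continuous.div continuous_const (by fun_prop)
    fun t => (lt_max_of_lt_left one_pos).ne'

theorem nF_cont (δ : ℝ) : Continuous (nF δ) := by unfold nF; fun_prop

theorem rt_sq (g t : ℝ) : rtF g t * rtF g t = max (t - g) 0 :=
  Real.mul_self_sqrt (le_max_right _ _)

theorem f1 {g : ℝ} (hg : 0 < g) (t : ℝ) :
    rtF g t * (rF g t * t * t * rF g t) * rtF g t = max (t - g) 0 := by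
  rcases le_or_gt t g with h | h
  · have h0 : rtF g t = 0 := by unfold rtF; rw [max_eq_right (by linarith), Real.sqrt_zero]
    rw [h0, max_eq_right (by linarith)]; simp
  · have ht : t ≠ 0 := by linarith
    have h1 : rF g t * t * t * rF g t = 1 := by
      unfold rF
      rw [max_eq_left h.le]
      field_simp
    rw [h1, mul_one, rt_sq]

theorem f2 {g : ℝ} (hg : 0 < g) (t : ℝ) :
    rtF g t * (rF g t * rF g t) * rtF g t ≤ (g ^ 2)⁻¹ * max (t - g) 0 := by
  have h1 : rtF g t * (rF g t * rF g t) * rtF g t = (rF g t * rF g t) * max (t - g) 0 := by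
    rw [← rt_sq]; ring
  rw [h1]
  refine mul_le_mul_of_nonneg_right ?_ (le_max_right _ _)
  have h2 : rF g t ≤ g⁻¹ := inv_anti₀ hg (le_max_right _ _)
  have h3 : 0 ≤ rF g t := inv_nonneg.2 (hg.le.trans (le_max_right _ _))
  calc rF g t * rF g t ≤ g⁻¹ * g⁻¹ := mul_le_mul h2 h2 h3 (h3.trans h2)
    _ = (g ^ 2)⁻¹ := by rw [pow_two, mul_inv]

theorem m_bd {d t : ℝ} (hd : 0 < d) (ht : 0 ≤ t) : 0 ≤ mF d t ∧ mF d t ≤ 1 ∧
    (t ≤ d / 2 → mF d t ≤ 2 * t / d) ∧ (d / 2 ≤ t → mF d t = 1) := by
  unfold mF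
  refine ⟨le_min zero_le_one (by positivity), min_le_left _ _, fun _ => min_le_right _ _,
    fun h => min_eq_left ?_⟩
  rw [le_div_iff₀ hd]
  linarith

theorem k1 {d t : ℝ} (hd : 0 < d) (ht : 0 ≤ t) :
    t ≤ mF d t * t * mF d t - d / 2 * (mF d t * mF d t) + d := by
  obtain ⟨h0, h1, h2, h3⟩ := m_bd hd ht
  rcases le_total t (d / 2) with h | h
  · have h4 : mF d t * mF d t ≤ 1 := by nlinarith
    nlinarith [mul_nonneg h0 h0]
  · rw [h3 h]; linarith

theorem k2 {d t : ℝ} (hd : 0 < d) (ht : 0 ≤ t) :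
    mF d t * t * mF d t + d / 2 * (mF d t * mF d t) ≤ 2 * t := by
  obtain ⟨h0, h1, h2, h3⟩ := m_bd hd ht
  rcases le_total t (d / 2) with h | h
  · have h4 := h2 h
    have h5 : mF d t * mF d t ≤ 2 * t / d := by
      calc mF d t * mF d t ≤ 1 * (2 * t / d) := mul_le_mul h1 h4 h0 zero_le_one
        _ = _ := one_mul _
    have h6 : mF d t * t * mF d t + d / 2 * (mF d t * mF d t) = (t + d / 2) * (mF d t * mF d t) := by
      ring
    rw [h6]
    calc (t + d / 2) * (mF d t * mF d t) ≤ d * (2 * t / d) :=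
          mul_le_mul (by linarith) h5 (mul_nonneg h0 h0) hd.le
      _ = 2 * t := by field_simp
  · rw [h3 h]; linarith

theorem k3 {d t : ℝ} (hd : 0 < d) (ht : 0 ≤ t) : mF d t = kF d t * t := by
  unfold mF kF
  rcases le_total 1 (2 * t / d) with h | h
  · have h0 : t ≠ 0 := by
      rintro rfl
      norm_num at h
    rw [min_eq_left h, max_eq_right h]
    field_simp
  · rw [min_eq_right h, max_eq_left h]
    field_simp

theorem n1 {δ t : ℝ} (hδ : 0 < δ) (ht : 0 ≤ t) : nF δ t * nF δ t ≤ 1 := by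
  have h0 : 0 ≤ nF δ t := le_max_left _ _
  have h1 : nF δ t ≤ 1 := max_le zero_le_one (by
    have : 0 ≤ t / δ := by positivity
    linarith)
  nlinarith

theorem n2 {δ t : ℝ} (hδ : 0 < δ) (ht : 0 ≤ t) :
    nF δ t * t * nF δ t ≤ δ * (nF δ t * nF δ t) := by
  have h0 : 0 ≤ nF δ t := le_max_left _ _
  rcases le_total t δ with h | h
  · nlinarith [mul_nonneg h0 h0]
  · have h1 : nF δ t = 0 := by
      unfold nF
      refine max_eq_left ?_
      have : 1 ≤ t / δ := (one_le_div hδ).2 h
      linarith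
    rw [h1]; simp

/-! ## Elements of a C*-algebra -/

section alg
variable {D : Type u} [CStarAlgebra D] [PartialOrder D] [StarOrderedRing D]

theorem cmul (a : D) {f g : ℝ → ℝ} (hf : Continuous f) (hg : Continuous g) :
    cfc f a * cfc g a = cfc (fun t => f t * g t) a :=
  (cfc_mul f g a hf.continuousOn hg.continuousOn).symm

theorem csmul (a : D) {f : ℝ → ℝ} (hf : Continuous f) (c : ℝ) :
    c • cfc f a = cfc (fun t => c * f t) a :=
  (cfc_const_mul c f a hf.continuousOn).symm

theorem a0 (g : ℝ) (X : D) : cfc (rtF g) X * cfc (rtF g) X = cut X g := by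
  rw [cmul X (rtF_cont g) (rtF_cont g)]
  simp_rw [rt_sq]
  rfl

theorem a1 {g : ℝ} (hg : 0 < g) {X : D} (hX : 0 ≤ X) :
    cfc (rtF g) X * (cfc (rF g) X * X * X * cfc (rF g) X) * cfc (rtF g) X = cut X g := by
  have hsa : IsSelfAdjoint X := hX.isSelfAdjoint
  have c1 := rtF_cont g
  have c2 := rF_cont hg
  calc _ = cfc (rtF g) X * (cfc (rF g) X * cfc (fun t : ℝ => t) X * cfc (fun t : ℝ => t) X *
        cfc (rF g) X) * cfc (rtF g) X := by rw [cfc_id' ℝ X]
    _ = cfc (fun t => rtF g t * (rF g t * t * t * rF g t) * rtF g t) X := by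
      rw [cmul X c2 continuous_id', cmul X (by fun_prop) continuous_id', cmul X (by fun_prop) c2,
        cmul X c1 (by fun_prop), cmul X (by fun_prop) c1]
    _ = cut X g := by
      simp_rw [f1 hg]
      rfl

theorem a2 {g : ℝ} (hg : 0 < g) {X : D} (hX : 0 ≤ X) :
    cfc (rtF g) X * (cfc (rF g) X * cfc (rF g) X) * cfc (rtF g) X ≤ (g ^ 2)⁻¹ • cut X g := by
  have hsa : IsSelfAdjoint X := hX.isSelfAdjoint
  have c1 := rtF_cont g
  have c2 := rF_cont hg
  unfold cut
  rw [cmul X c2 c2, cmul X c1 (by fun_prop), cmul X (by fun_prop) c1, csmul X (by fun_prop)]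
  refine cfc_mono (fun t _ => f2 hg t) ?_ ?_
  · exact Continuous.continuousOn (by fun_prop)
  · exact Continuous.continuousOn (by fun_prop)

theorem b1 {d : ℝ} (hd : 0 < d) {e : D} (he : 0 ≤ e) :
    e ≤ cfc (mF d) e * e * cfc (mF d) e - (d / 2) • (cfc (mF d) e * cfc (mF d) e) +
      d • (1 : D) := by
  have hsa : IsSelfAdjoint e := he.isSelfAdjoint
  have c1 := mF_cont d
  have h1 : cfc (mF d) e * e * cfc (mF d) e = cfc (fun t => mF d t * t * mF d t) e := by
    calc _ = cfc (mF d) e * cfc (fun t : ℝ => t) e * cfc (mF d) e := by rw [cfc_id' ℝ e]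
      _ = _ := by rw [cmul e c1 continuous_id', cmul e (by fun_prop) c1]
  rw [h1, cmul e c1 c1, csmul e (by fun_prop),
    ← cfc_sub (fun t => mF d t * t * mF d t) (fun t => d / 2 * (mF d t * mF d t)) e
      (Continuous.continuousOn (by fun_prop)) (Continuous.continuousOn (by fun_prop)),
    cfc_add_smul_one e _ (by fun_prop) hsa]
  conv_lhs => rw [← cfc_id' ℝ e]
  refine cfc_mono (fun t ht => k1 hd (spectrum_nonneg_of_nonneg he ht)) ?_ ?_
  · exact continuous_id'.continuousOn
  · exact Continuous.continuousOn (by fun_prop)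

theorem b2 {d : ℝ} (hd : 0 < d) {e : D} (he : 0 ≤ e) :
    cfc (mF d) e * e * cfc (mF d) e + (d / 2) • (cfc (mF d) e * cfc (mF d) e) ≤ (2 : ℝ) • e := by
  have hsa : IsSelfAdjoint e := he.isSelfAdjoint
  have c1 := mF_cont d
  have h1 : cfc (mF d) e * e * cfc (mF d) e = cfc (fun t => mF d t * t * mF d t) e := by
    calc _ = cfc (mF d) e * cfc (fun t : ℝ => t) e * cfc (mF d) e := by rw [cfc_id' ℝ e]
      _ = _ := by rw [cmul e c1 continuous_id', cmul e (by fun_prop) c1]
  rw [h1, cmul e c1 c1, csmul e (by fun_prop),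
    ← cfc_add e (fun t => mF d t * t * mF d t) (fun t => d / 2 * (mF d t * mF d t))
      (Continuous.continuousOn (by fun_prop)) (Continuous.continuousOn (by fun_prop))]
  have h2 : (2 : ℝ) • e = cfc (fun t : ℝ => 2 * t) e := by
    rw [← csmul e continuous_id', cfc_id' ℝ e]
  rw [h2]
  refine cfc_mono (fun t ht => k2 hd (spectrum_nonneg_of_nonneg he ht)) ?_ ?_
  · exact Continuous.continuousOn (by fun_prop)
  · exact Continuous.continuousOn (by fun_prop)

theorem b3 {d : ℝ} (hd : 0 < d) {e : D} (he : 0 ≤ e) :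
    cfc (mF d) e = cfc (kF d) e * e := by
  have hsa : IsSelfAdjoint e := he.isSelfAdjoint
  calc cfc (mF d) e = cfc (fun t => kF d t * t) e :=
        cfc_congr fun t ht => k3 hd (spectrum_nonneg_of_nonneg he ht)
    _ = cfc (kF d) e * cfc (fun t : ℝ => t) e := (cmul e (kF_cont d) continuous_id').symm
    _ = _ := by rw [cfc_id' ℝ e]

theorem c1 {δ : ℝ} (hδ : 0 < δ) {S : D} (hS : 0 ≤ S) : cfc (nF δ) S * cfc (nF δ) S ≤ 1 := by
  have hsa : IsSelfAdjoint S := hS.isSelfAdjoint
  rw [cmul S (nF_cont δ) (nF_cont δ)]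
  conv_rhs => rw [← cfc_const_one ℝ S]
  have c1 := nF_cont δ
  refine cfc_mono (fun t ht => n1 hδ (spectrum_nonneg_of_nonneg hS ht)) ?_ ?_
  · exact Continuous.continuousOn (by fun_prop)
  · exact continuousOn_const

theorem c2 {δ : ℝ} (hδ : 0 < δ) {S : D} (hS : 0 ≤ S) :
    cfc (nF δ) S * S * cfc (nF δ) S ≤ δ • (cfc (nF δ) S * cfc (nF δ) S) := by
  have hsa : IsSelfAdjoint S := hS.isSelfAdjoint
  have c1 := nF_cont δ
  have h1 : cfc (nF δ) S * S * cfc (nF δ) S = cfc (fun t => nF δ t * t * nF δ t) S := by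
    calc _ = cfc (nF δ) S * cfc (fun t : ℝ => t) S * cfc (nF δ) S := by rw [cfc_id' ℝ S]
      _ = _ := by rw [cmul S c1 continuous_id', cmul S (by fun_prop) c1]
  rw [h1, cmul S c1 c1, csmul S (by fun_prop)]
  refine cfc_mono (fun t ht => n2 hδ (spectrum_nonneg_of_nonneg hS ht)) ?_ ?_
  · exact Continuous.continuousOn (by fun_prop)
  · exact Continuous.continuousOn (by fun_prop)

theorem norm_two {x y : D} (hx : 0 ≤ x) (hy : 0 ≤ y) {ε : ℝ} (h : ‖x - y‖ < ε) :
    y ≤ x + ε • (1 : D) ∧ x ≤ y + ε • (1 : D) := by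
  have hsa : IsSelfAdjoint (x - y) := hx.isSelfAdjoint.sub hy.isSelfAdjoint
  have h1 := hsa.le_algebraMap_norm_self
  have h2 := hsa.neg_algebraMap_norm_le_self
  rw [Algebra.algebraMap_eq_smul_one] at h1 h2
  have h3 : ‖x - y‖ • (1 : D) ≤ ε • (1 : D) := smul_le_smul_of_nonneg_right h.le zero_le_one
  constructor
  · have h4 : -(ε • (1 : D)) ≤ x - y := (neg_le_neg h3).trans h2
    have h5 := add_le_add_right h4 (y + ε • (1 : D))
    have e1 : y + ε • (1 : D) + -(ε • (1 : D)) = y := by abel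
    have e2 : y + ε • (1 : D) + (x - y) = x + ε • (1 : D) := by abel
    rwa [e1, e2] at h5
  · have h4 := h1.trans h3
    have h5 := add_le_add_right h4 y
    have e2 : y + (x - y) = x := by abel
    rwa [e2] at h5

end alg

/-! ## The theorem -/

theorem t (hR : RnkP.{u}) : VecP.{u} := by
  intro B _ _ _ ρ hcomp n ν _ _ _ _ z S e K δ g d hz hzK hK hS he hδ hg hd hdim
  set q : CStarMatrix n n B := cfc Real.sqrt z with hq
  have hqq : q * q = z := sqrt_mul_self' hz
  have hq0 : 0 ≤ q := cfc_nonneg fun t _ => Real.sqrt_nonneg t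
  have hqs : q.conjTranspose = q := hq0.isSelfAdjoint.star_eq
  set N : CStarMatrix n n B := cfc (nF δ) S with hN
  have hNs : N.conjTranspose = N := by
    have : IsSelfAdjoint N := cfc_predicate _ _
    exact this.star_eq
  have hNE : nE δ S = N := rfl
  obtain ⟨hX0, hrk⟩ := hR B n z q S δ g hz hq0 hqq hS hδ hg
  rw [hNE] at hX0 hrk
  set X : CStarMatrix n n B := q * N * q with hX
  have hcu : Cu e (cut X g) := by
    refine hcomp ν n e (cut X g) he (cut_nonneg _ _) fun ω => ?_
    have h1 := hdim ω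
    have h2 := hrk ω
    linarith
  obtain ⟨w, hw⟩ := hcu (d / 2) (by positivity)
  set rt : CStarMatrix n n B := cfc (rtF g) X with hrt
  set r : CStarMatrix n n B := cfc (rF g) X with hr
  set k : CStarMatrix ν ν B := cfc (mF d) e with hk
  set k' : CStarMatrix ν ν B := cfc (kF d) e with hk'
  have hrts : rt.conjTranspose = rt := by
    have : IsSelfAdjoint rt := cfc_predicate _ _
    exact this.star_eq
  have hrs : r.conjTranspose = r := by
    have : IsSelfAdjoint r := cfc_predicate _ _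
    exact this.star_eq
  have hks : k.conjTranspose = k := by
    have : IsSelfAdjoint k := cfc_predicate _ _
    exact this.star_eq
  have hC0 : 0 ≤ cut X g := cut_nonneg _ _
  have hM0 : 0 ≤ w * cut X g * w.conjTranspose := cm_conj_nonneg w hC0
  obtain ⟨hM1, hM2⟩ := norm_two hM0 he hw
  set M : CStarMatrix ν ν B := w * cut X g * w.conjTranspose with hM
  have hA1 : rt * (r * X * X * r) * rt = cut X g := a1 hg hX0
  have hA2 : rt * (r * r) * rt ≤ (g ^ 2)⁻¹ • cut X g := a2 hg hX0
  obtain ⟨v, hv⟩ : ∃ v : CStarMatrix n ν B, v = r * rt * w.conjTranspose * k := ⟨_, rfl⟩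
  have hvs : v.conjTranspose = k * w * rt * r := by
    rw [hv, cm_conj_mul, cm_conj_mul, cm_conj_mul, cm_conj_conj, hks, hrts, hrs]
    simp only [cm_assoc]
  refine ⟨N * q * v, N * q * (r * rt * w.conjTranspose * k'), ?_, ?_, ?_, ?_⟩
  · rw [hv, hk, b3 hd he]
    simp only [cm_assoc]
    rfl
  · have h1 : (N * q * v).conjTranspose * z * (N * q * v) = k * M * k := by
      have : (N * q * v).conjTranspose * z * (N * q * v) =
          k * (w * (rt * (r * X * X * r) * rt) * w.conjTranspose) * k := by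
        rw [cm_conj_mul (N * q) v, cm_conj_mul N q, hNs, hqs, hvs, hv, ← hqq, hX]
        simp only [cm_assoc]
      rw [this, hA1]
    rw [h1]
    have h2 : k * e * k ≤ k * (M + (d / 2) • (1 : CStarMatrix ν ν B)) * k := by
      have h := cm_conj_le k hM1
      rwa [hks] at h
    have h3 : k * (M + (d / 2) • (1 : CStarMatrix ν ν B)) * k = k * M * k + (d / 2) • (k * k) := by
      rw [mul_add, add_mul, cm_mul_rsmul, cm_rsmul_mul, mul_one]
    rw [h3] at h2
    have h4 : k * e * k - (d / 2) • (k * k) ≤ k * M * k := sub_le_iff_le_add.2 h2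
    have h5 : e ≤ k * e * k - (d / 2) • (k * k) + d • (1 : CStarMatrix ν ν B) := b1 hd he
    exact h5.trans (add_le_add_left h4 _)
  · have h1 : (N * q * v).conjTranspose * (N * q * v) = v.conjTranspose * (q * (N * N) * q) * v := by
      rw [cm_conj_mul (N * q) v, cm_conj_mul N q, hNs, hqs]
      simp only [cm_assoc]
    have h2 : q * (N * N) * q ≤ z := by
      have h := cm_conj_le q (c1 hδ hS)
      rw [hqs, mul_one, hqq] at h
      exact h
    have h3 : v.conjTranspose * (q * (N * N) * q) * v ≤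
        v.conjTranspose * (K • (1 : CStarMatrix n n B)) * v := cm_conj_le' v (h2.trans hzK)
    have h4 : v.conjTranspose * (K • (1 : CStarMatrix n n B)) * v =
        K • (k * (w * (rt * (r * r) * rt) * w.conjTranspose) * k) := by
      rw [cm_mul_rsmul, cm_rsmul_mul, cm_mul_one, hvs, hv]
      simp only [cm_assoc]
    have h5 : k * (w * (rt * (r * r) * rt) * w.conjTranspose) * k ≤
        (g ^ 2)⁻¹ • (k * M * k) := by
      have ha := cm_conj_le w hA2
      have hb := cm_conj_le k ha
      rw [hks, cm_mul_rsmul, cm_rsmul_mul, cm_mul_rsmul, cm_rsmul_mul] at hb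
      exact hb
    have h6 : k * M * k ≤ (2 : ℝ) • e := by
      have h := cm_conj_le k hM2
      rw [hks] at h
      have h7 : k * (e + (d / 2) • (1 : CStarMatrix ν ν B)) * k = k * e * k + (d / 2) • (k * k) := by
        rw [mul_add, add_mul, cm_mul_rsmul, cm_rsmul_mul, mul_one]
      rw [h7] at h
      exact h.trans (b2 hd he)
    rw [h1]
    refine h3.trans ?_
    rw [h4]
    have h8 : (g ^ 2)⁻¹ • (k * M * k) ≤ (g ^ 2)⁻¹ • ((2 : ℝ) • e) :=
      smul_le_smul_of_nonneg_left h6 (by positivity)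
    have h9 := smul_le_smul_of_nonneg_left (h5.trans h8) hK
    refine h9.trans (le_of_eq ?_)
    rw [smul_smul, smul_smul]
    congr 1
    field_simp
  · have h1 : (N * q * v).conjTranspose * S * (N * q * v) =
        (q * v).conjTranspose * (N * S * N) * (q * v) := by
      rw [cm_conj_mul (N * q) v, cm_conj_mul N q, cm_conj_mul q v, hNs, hqs]
      simp only [cm_assoc]
    have h2 : (N * q * v).conjTranspose * (N * q * v) =
        (q * v).conjTranspose * (N * N) * (q * v) := by
      rw [cm_conj_mul (N * q) v, cm_conj_mul N q, cm_conj_mul q v, hNs, hqs]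
      simp only [cm_assoc]
    have h3 := cm_conj_le' (q * v) (c2 hδ hS)
    rw [cm_mul_rsmul, cm_rsmul_mul] at h3
    rw [h1, h2]
    exact h3

end Pool.Agent.Helper48.RC2.VEC
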